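import Pool.Agent.Helper5.Core2.Defs

/-! MP_fafe86_al, section O2: `theoremL`. -/

set_option autoImplicit false

namespace Pool.Agent.Helper90.Core2

open Pool.Agent.Helper5.Core2

section Linear

variable {V T : Type*} [AddCommGroup V] [Module (ZMod 2) V] [AddCommGroup T] [Module (ZMod 2) T]
  {q : V → T} {β : V →ₗ[ZMod 2] V →ₗ[ZMod 2] T}

theorem zmod2_cases (c : ZMod 2) : c = 0 ∨ c = 1 := by
  revert c
  decide

theorem beta_symm (h : IsQ q β) (x y : V) : β x y = β y x := by
  have h1 := h.hq x y
  have h2 := h.hq y x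
  rw [add_comm y x, h1, add_comm (q y)] at h2
  exact add_left_cancel h2

theorem isQ_restrict (h : IsQ q β) (X : Submodule (ZMod 2) V) :
    IsQ (fun x : X => q x) (β.domRestrict₁₂ X X) where
  hq x y := h.hq x y
  star x y := by
    rcases h.star x y with h1 | h1 | h1
    · exact Or.inl fun v => h1 v
    · exact Or.inr (Or.inl fun v => h1 v)
    · exact Or.inr (Or.inr fun v => h1 v)

theorem isQ_map {T' : Type*} [AddCommGroup T'] [Module (ZMod 2) T'] (h : IsQ q β)
    (π : T →ₗ[ZMod 2] T') : IsQ (fun x : V => π (q x)) (β.compr₂ π) where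
  hq x y := by
    rw [h.hq, map_add, map_add]
    rfl
  star x y := by
    have key : ∀ t, t ∈ Submodule.span (ZMod 2) {q x, q y, q (x + y)} →
        π t ∈ Submodule.span (ZMod 2) {π (q x), π (q y), π (q (x + y))} := by
      intro t ht
      have h1 : π t ∈ (Submodule.span (ZMod 2) {q x, q y, q (x + y)}).map π := ⟨t, ht, rfl⟩
      rw [Submodule.map_span, Set.image_insert_eq, Set.image_insert_eq, Set.image_singleton] at h1
      exact h1
    rcases h.star x y with h1 | h1 | h1
    · exact Or.inl fun v => key _ (h1 v)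
    · exact Or.inr (Or.inl fun v => key _ (h1 v))
    · exact Or.inr (Or.inr fun v => key _ (h1 v))

theorem exists_sub_finrank [Finite V] (U : Submodule (ZMod 2) V) {k : ℕ}
    (hk : k ≤ Module.finrank (ZMod 2) U) :
    ∃ W : Submodule (ZMod 2) V, W ≤ U ∧ Module.finrank (ZMod 2) W = k := by
  obtain ⟨f, hf⟩ := exists_linearIndependent_of_le_finrank hk
  refine ⟨(Submodule.span (ZMod 2) (Set.range f)).map U.subtype, Submodule.map_subtype_le _ _, ?_⟩
  rw [Submodule.finrank_map_subtype_eq, finrank_span_eq_card hf, Fintype.card_fin]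

theorem good_of_rad [Finite V] (h : IsQ q β) {v0 : V} (hv0 : v0 ≠ 0) (hr : ∀ w, β v0 w = 0)
    (IH : ∀ X : Submodule (ZMod 2) V, X ≠ ⊤ → Good (β.domRestrict₁₂ X X)) : Good β := by
  obtain ⟨X, hX⟩ := Submodule.exists_isCompl (Submodule.span (ZMod 2) {v0})
  have hXt : X ≠ ⊤ := by
    intro h1
    rw [h1] at hX
    have h2 : v0 ∈ Submodule.span (ZMod 2) {v0} ⊓ ⊤ :=
      ⟨Submodule.mem_span_singleton_self v0, trivial⟩
    rw [hX.inf_eq_bot] at h2
    exact hv0 h2
  obtain ⟨U, hU, hUd⟩ := IH X hXt
  have hr' : ∀ w, β w v0 = 0 := fun w => by rw [beta_symm h, hr]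
  refine ⟨U.map X.subtype ⊔ Submodule.span (ZMod 2) {v0}, ?_, ?_⟩
  · intro u hu v hv
    rw [Submodule.mem_sup] at hu hv
    obtain ⟨_, ⟨u1, hu1, rfl⟩, u2, hu2, rfl⟩ := hu
    obtain ⟨_, ⟨v1, hv1, rfl⟩, v2, hv2, rfl⟩ := hv
    rw [Submodule.mem_span_singleton] at hu2 hv2
    obtain ⟨a, rfl⟩ := hu2
    obtain ⟨b, rfl⟩ := hv2
    have h1 : β (X.subtype u1) (X.subtype v1) = 0 := hU u1 hu1 v1 hv1
    simp only [map_add, LinearMap.add_apply, map_smul, LinearMap.smul_apply, hr, hr', smul_zero,
      add_zero, h1]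
  · have h1 := Submodule.finrank_add_eq_of_isCompl hX
    have h2 : Module.finrank (ZMod 2) (Submodule.span (ZMod 2) {v0}) = 1 :=
      finrank_span_singleton hv0
    have h3 := Submodule.finrank_sup_add_finrank_inf_eq (U.map X.subtype)
      (Submodule.span (ZMod 2) {v0})
    have h4 : U.map X.subtype ⊓ Submodule.span (ZMod 2) {v0} = ⊥ := by
      rw [eq_bot_iff, ← hX.inf_eq_bot, inf_comm (Submodule.span (ZMod 2) {v0}) X]
      exact inf_le_inf_right _ (Submodule.map_subtype_le _ _)
    rw [h4, finrank_bot, Submodule.finrank_map_subtype_eq, h2] at h3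
    omega

end Linear

theorem theoremL
    (MF : ∀ (V T : Type) [AddCommGroup V] [Module (ZMod 2) V] [AddCommGroup T]
      [Module (ZMod 2) T] [Finite V] [Finite T] (q : V → T)
      (β : V →ₗ[ZMod 2] V →ₗ[ZMod 2] T), MinL q β → False)
    (V T : Type) [AddCommGroup V] [Module (ZMod 2) V] [AddCommGroup T]
    [Module (ZMod 2) T] [Finite V] [Finite T] (q : V → T) (β : V →ₗ[ZMod 2] V →ₗ[ZMod 2] T)
    (h : IsQ q β) : Good β := by
  have key : ∀ n : ℕ, ∀ (V T : Type) [AddCommGroup V] [Module (ZMod 2) V] [AddCommGroup T]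
      [Module (ZMod 2) T] [Finite V] [Finite T] (q : V → T) (β : V →ₗ[ZMod 2] V →ₗ[ZMod 2] T),
      Nat.card V + Nat.card T = n → IsQ q β → Good β := by
    intro n
    induction n using Nat.strong_induction_on with
    | _ n ih =>
      intro V T _ _ _ _ _ _ q β hn h
      have hsub : ∀ X : Submodule (ZMod 2) V, X ≠ ⊤ → Good (β.domRestrict₁₂ X X) := by
        intro X hX
        refine ih (Nat.card X + Nat.card T) ?_ X T _ _ rfl (isQ_restrict h X)
        rw [← hn]
        have h1 : Nat.card X < Nat.card V := by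
          obtain ⟨v, hv⟩ : ∃ v, v ∉ X := by
            by_contra hcon
            push Not at hcon
            exact hX (Submodule.eq_top_iff'.2 hcon)
          exact Finite.card_subtype_lt hv
        omega
      by_contra hbad
      have hrad : ∀ v, (∀ w, β v w = 0) → v = 0 := by
        intro v hv
        by_contra hv0
        exact hbad (good_of_rad h hv0 hv hsub)
      have hspan : ∀ θ : Module.Dual (ZMod 2) T, θ ≠ 0 → ∃ v w, θ (β v w) ≠ 0 := by
        intro θ hθ
        by_contra hcon
        push Not at hcon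
        apply hbad
        obtain ⟨t0, ht0⟩ : ∃ t0, θ t0 ≠ 0 := by
          by_contra h1
          push Not at h1
          exact hθ (LinearMap.ext h1)
        have ht1 : θ t0 = 1 := (zmod2_cases _).resolve_left ht0
        let π : T →ₗ[ZMod 2] LinearMap.ker θ :=
          LinearMap.codRestrict (LinearMap.ker θ) (LinearMap.id - θ.smulRight t0) (by
            intro t
            simp [ht1])
        have hcard : Nat.card (LinearMap.ker θ) < Nat.card T :=
          Finite.card_subtype_lt (x := t0) (by
            intro h1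
            exact ht0 h1)
        obtain ⟨U, hU1, hU2⟩ := ih (Nat.card V + Nat.card (LinearMap.ker θ)) (by omega) V
          (LinearMap.ker θ) _ _ rfl (isQ_map h π)
        refine ⟨U, fun u hu v hv => ?_, hU2⟩
        have h1 := congrArg Subtype.val (hU1 u hu v hv)
        have h2 : (π (β u v) : T) = β u v - θ (β u v) • t0 := rfl
        have h3 : ((β.compr₂ π) u v : T) = π (β u v) := rfl
        rw [h3, h2, hcon, zero_smul, sub_zero] at h1
        exact h1
      have htmin : ∀ z : T, z ≠ 0 → ∃ U : Submodule (ZMod 2) V,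
          Module.finrank (ZMod 2) V = Module.finrank (ZMod 2) U + 2 ∧
          (∀ u ∈ U, ∀ v ∈ U, β u v = 0 ∨ β u v = z) := by
        intro z hz
        have hfin : Finite (T ⧸ Submodule.span (ZMod 2) {z}) :=
          Finite.of_surjective _ (Submodule.mkQ_surjective (Submodule.span (ZMod 2) {z}))
        have hcard : Nat.card (T ⧸ Submodule.span (ZMod 2) {z}) < Nat.card T := by
          have h1 := Submodule.card_eq_card_quotient_mul_card (Submodule.span (ZMod 2) {z})
          have h2 : 1 < Nat.card (Submodule.span (ZMod 2) {z}) := by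
            rw [Finite.one_lt_card_iff_nontrivial]
            exact ⟨⟨⟨z, Submodule.mem_span_singleton_self z⟩, 0, fun h3 =>
              hz (congrArg Subtype.val h3)⟩⟩
          have h3 : 0 < Nat.card (T ⧸ Submodule.span (ZMod 2) {z}) := Nat.card_pos
          nlinarith
        obtain ⟨U, hU1, hU2⟩ := ih (Nat.card V + Nat.card (T ⧸ Submodule.span (ZMod 2) {z}))
          (by omega) V (T ⧸ Submodule.span (ZMod 2) {z}) _ _ rfl
          (isQ_map h (Submodule.span (ZMod 2) {z}).mkQ)
        have hV2 : 2 ≤ Module.finrank (ZMod 2) V := by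
          by_contra hcon
          apply hbad
          refine ⟨⊥, ?_, by omega⟩
          intro u hu v _
          rw [Submodule.mem_bot] at hu
          rw [hu, map_zero, LinearMap.zero_apply]
        obtain ⟨W, hW1, hW2⟩ := exists_sub_finrank U
          (k := Module.finrank (ZMod 2) V - 2) (by omega)
        refine ⟨W, by omega, fun u hu v hv => ?_⟩
        have h1 : (Submodule.span (ZMod 2) {z}).mkQ (β u v) = 0 := hU1 u (hW1 hu) v (hW1 hv)
        rw [Submodule.mkQ_apply, Submodule.Quotient.mk_eq_zero,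
          Submodule.mem_span_singleton] at h1
        obtain ⟨a, ha⟩ := h1
        rcases zmod2_cases a with rfl | rfl
        · left
          rw [← ha, zero_smul]
        · right
          rw [← ha, one_smul]
      refine MF V T q β ⟨h, hbad, htmin, ?_, hrad, hspan⟩
      intro X hX
      obtain ⟨U, hU1, hU2⟩ := hsub X hX
      refine ⟨U.map X.subtype, Submodule.map_subtype_le _ _, ?_, ?_⟩
      · rintro _ ⟨u, hu, rfl⟩ _ ⟨v, hv, rfl⟩
        exact hU1 u hu v hv
      · rw [Submodule.finrank_map_subtype_eq]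
        exact hU2
  exact key _ V T q β rfl h

end Pool.Agent.Helper90.Core2
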