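import Pool.Agent.Helper5.Core2.Defs

/-! MP_fafe86_al, section O2: `class2_T`. -/

set_option autoImplicit false

namespace Pool.Agent.Helper90.Core2

open Pool.Agent.Helper5.Core2 Subgroup

theorem zmod2_cases' (c : ZMod 2) : c = 0 ∨ c = 1 := by
  revert c
  decide

section

variable {G : Type} [Group G]

/-- The commutator. -/
def kk (g h : G) : G := g * h * g⁻¹ * h⁻¹

theorem kk_central (hcl : ∀ x : G, x ^ 2 ∈ center G) (x y : G) : kk x y ∈ center G := by
  have h : kk x y = x ^ 2 * (x⁻¹ * y) ^ 2 * (y ^ 2)⁻¹ := by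
    unfold kk
    simp only [pow_two]
    group
  rw [h]
  exact mul_mem (mul_mem (hcl _) (hcl _)) (inv_mem (hcl _))

theorem kk_mul_left (hcl : ∀ x : G, x ^ 2 ∈ center G) (a b c : G) :
    kk (a * b) c = kk a c * kk b c := by
  have h1 := mem_center_iff.1 (kk_central hcl b c) a
  have h2 : kk (a * b) c = a * kk b c * a⁻¹ * kk a c := by
    unfold kk
    group
  rw [h2, h1, mul_inv_cancel_right, mem_center_iff.1 (kk_central hcl b c) (kk a c)]

theorem kk_mul_right (hcl : ∀ x : G, x ^ 2 ∈ center G) (a b c : G) :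
    kk a (b * c) = kk a b * kk a c := by
  have h1 := mem_center_iff.1 (kk_central hcl a c) b
  have h2 : kk a (b * c) = kk a b * (b * kk a c * b⁻¹) := by
    unfold kk
    group
  rw [h2, h1, mul_inv_cancel_right]

theorem kk_center_left {a c : G} (ha : a ∈ center G) : kk a c = 1 := by
  unfold kk
  rw [← mem_center_iff.1 ha c]
  group

theorem kk_center_right {a c : G} (hc : c ∈ center G) : kk a c = 1 := by
  unfold kk
  rw [mem_center_iff.1 hc a]
  group

theorem sq_mul' (hcl : ∀ x : G, x ^ 2 ∈ center G) (hel : ∀ g ∈ center G, g ^ 2 = 1) (g h : G) :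
    (g * h) ^ 2 = g ^ 2 * h ^ 2 * kk g h := by
  have h1 : (g * h) ^ 2 = g * kk h g * g * h * h := by
    unfold kk
    rw [pow_two]
    group
  have h2 : kk h g * kk g h = 1 := by
    unfold kk
    group
  have h3 : kk g h * kk g h = 1 := by
    have := hel _ (kk_central hcl g h)
    rwa [pow_two] at this
  have h4 : kk h g = kk g h := by
    rw [← h3] at h2
    exact mul_right_cancel h2
  have h5 := mem_center_iff.1 (kk_central hcl g h)
  rw [h1, h4, h5 g, pow_two, pow_two, h5 (g * g * (h * h))]
  group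

end

theorem class2_aux
    (TL : ∀ (V T : Type) [AddCommGroup V] [Module (ZMod 2) V] [AddCommGroup T]
      [Module (ZMod 2) T] [Finite V] [Finite T] (q : V → T)
      (β : V →ₗ[ZMod 2] V →ₗ[ZMod 2] T), IsQ q β → Good β)
    (G : Type) [Group G] [Finite G] (h : IsC G) (hcl : ∀ x : G, x ^ 2 ∈ center G)
    (hel : ∀ g ∈ center G, g ^ 2 = 1) (V T : Type) [AddCommGroup V] [Module (ZMod 2) V]
    [AddCommGroup T] [Module (ZMod 2) T] [Finite V] [Finite T]
    (φ : G →* Multiplicative V) (hφ : Function.Surjective φ)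
    (hker : ∀ g, φ g = 1 → g ∈ center G) (hker' : ∀ g ∈ center G, φ g = 1)
    (ι : center G →* Multiplicative T) (hι : Function.Injective ι) : TT G := by
  -- sections
  choose s hs using hφ
  have hdiff : ∀ g g' : G, φ g = φ g' → ∃ c ∈ center G, g = g' * c := by
    intro g g' h1
    refine ⟨g'⁻¹ * g, hker _ ?_, by group⟩
    rw [map_mul, map_inv, h1, inv_mul_cancel]
  have hkk : ∀ g g' k k' : G, φ g = φ g' → φ k = φ k' → kk g k = kk g' k' := by
    intro g g' k k' h1 h2
    obtain ⟨c, hc, rfl⟩ := hdiff g g' h1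
    obtain ⟨d, hd, rfl⟩ := hdiff k k' h2
    rw [kk_mul_left hcl, kk_center_left hc, mul_one, kk_mul_right hcl, kk_center_right hd, mul_one]
  have hsq : ∀ g g' : G, φ g = φ g' → g ^ 2 = g' ^ 2 := by
    intro g g' h1
    obtain ⟨c, hc, rfl⟩ := hdiff g g' h1
    rw [sq_mul' hcl hel, hel c hc, kk_center_right hc, mul_one, mul_one]
  -- the maps
  obtain ⟨q, hq⟩ : ∃ q : V → T, ∀ g : G, q (Multiplicative.toAdd (φ g)) =
      Multiplicative.toAdd (ι ⟨g ^ 2, hcl g⟩) := by
    refine ⟨fun v => Multiplicative.toAdd (ι ⟨(s (Multiplicative.ofAdd v)) ^ 2, hcl _⟩), ?_⟩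
    intro g
    have h1 : φ (s (Multiplicative.ofAdd (Multiplicative.toAdd (φ g)))) = φ g := hs _
    have h2 := hsq _ _ h1
    exact congrArg (fun t => Multiplicative.toAdd (ι t)) (Subtype.ext h2)
  obtain ⟨b, hb⟩ : ∃ b : V → V → T, ∀ g k : G, b (Multiplicative.toAdd (φ g))
      (Multiplicative.toAdd (φ k)) = Multiplicative.toAdd (ι ⟨kk g k, kk_central hcl g k⟩) := by
    refine ⟨fun v w => Multiplicative.toAdd (ι ⟨kk (s (Multiplicative.ofAdd v))
      (s (Multiplicative.ofAdd w)), kk_central hcl _ _⟩), ?_⟩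
    intro g k
    have h1 : φ (s (Multiplicative.ofAdd (Multiplicative.toAdd (φ g)))) = φ g := hs _
    have h2 : φ (s (Multiplicative.ofAdd (Multiplicative.toAdd (φ k)))) = φ k := hs _
    have h3 := hkk _ _ _ _ h1 h2
    exact congrArg (fun t => Multiplicative.toAdd (ι t)) (Subtype.ext h3)
  have hrep : ∀ v : V, ∃ g : G, Multiplicative.toAdd (φ g) = v := fun v =>
    ⟨s (Multiplicative.ofAdd v), by rw [hs]; rfl⟩
  have hadd1 : ∀ v v' w : V, b (v + v') w = b v w + b v' w := by
    intro v v' w
    obtain ⟨g, rfl⟩ := hrep v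
    obtain ⟨g', rfl⟩ := hrep v'
    obtain ⟨k, rfl⟩ := hrep w
    rw [← toAdd_mul, ← map_mul, hb, hb, hb, ← toAdd_mul, ← map_mul]
    congr 2
    exact Subtype.ext (kk_mul_left hcl g g' k)
  have hadd2 : ∀ v w w' : V, b v (w + w') = b v w + b v w' := by
    intro v w w'
    obtain ⟨g, rfl⟩ := hrep v
    obtain ⟨k, rfl⟩ := hrep w
    obtain ⟨k', rfl⟩ := hrep w'
    rw [← toAdd_mul, ← map_mul, hb, hb, hb, ← toAdd_mul, ← map_mul]
    congr 2
    exact Subtype.ext (kk_mul_right hcl g k k')
  have h01 : ∀ w : V, b 0 w = 0 := by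
    intro w
    have := hadd1 0 0 w
    rw [add_zero] at this
    exact left_eq_add.1 this
  have h02 : ∀ w : V, b w 0 = 0 := by
    intro w
    have := hadd2 w 0 0
    rw [add_zero] at this
    exact left_eq_add.1 this
  obtain ⟨β, hβ⟩ : ∃ β : V →ₗ[ZMod 2] V →ₗ[ZMod 2] T, ∀ v w, β v w = b v w := by
    refine ⟨LinearMap.mk₂ (ZMod 2) b hadd1 ?_ hadd2 ?_, fun v w => rfl⟩
    · intro c v w
      rcases zmod2_cases' c with rfl | rfl
      · rw [zero_smul, zero_smul, h01]
      · rw [one_smul, one_smul]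
    · intro c v w
      rcases zmod2_cases' c with rfl | rfl
      · rw [zero_smul, zero_smul, h02]
      · rw [one_smul, one_smul]
  have hspan : ∀ g k t : G, t ∈ PP g k → ∀ ht : t ∈ center G,
      Multiplicative.toAdd (ι ⟨t, ht⟩) ∈ Submodule.span (ZMod 2)
        {q (Multiplicative.toAdd (φ g)), q (Multiplicative.toAdd (φ k)),
          q (Multiplicative.toAdd (φ g) + Multiplicative.toAdd (φ k))} := by
    intro g k
    obtain ⟨W, hW⟩ : ∃ W, W = Submodule.span (ZMod 2)
        {q (Multiplicative.toAdd (φ g)), q (Multiplicative.toAdd (φ k)),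
          q (Multiplicative.toAdd (φ g) + Multiplicative.toAdd (φ k))} := ⟨_, rfl⟩
    rw [← hW]
    let S : Subgroup G :=
      { carrier := {t | ∃ ht : t ∈ center G, Multiplicative.toAdd (ι ⟨t, ht⟩) ∈ W}
        mul_mem' := by
          rintro a b ⟨ha, ha'⟩ ⟨hb, hb'⟩
          refine ⟨mul_mem ha hb, ?_⟩
          have : (⟨a * b, mul_mem ha hb⟩ : center G) = ⟨a, ha⟩ * ⟨b, hb⟩ := rfl
          rw [this, map_mul, toAdd_mul]
          exact W.add_mem ha' hb'
        one_mem' := by
          refine ⟨one_mem _, ?_⟩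
          have : (⟨1, one_mem _⟩ : center G) = 1 := rfl
          rw [this, map_one]
          exact W.zero_mem
        inv_mem' := by
          rintro a ⟨ha, ha'⟩
          refine ⟨inv_mem ha, ?_⟩
          have : (⟨a⁻¹, inv_mem ha⟩ : center G) = ⟨a, ha⟩⁻¹ := rfl
          rw [this, map_inv, toAdd_inv]
          exact W.neg_mem ha' }
    have hS : PP g k ≤ S := by
      unfold PP
      refine sup_le (sup_le ?_ ?_) ?_
      · rw [zpowers_le]
        refine ⟨hcl g, ?_⟩
        rw [← hq, hW]
        exact Submodule.subset_span (by simp)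
      · rw [zpowers_le]
        refine ⟨hcl k, ?_⟩
        rw [← hq, hW]
        exact Submodule.subset_span (by simp)
      · rw [zpowers_le]
        refine ⟨hcl (g * k), ?_⟩
        rw [← hq, hW, map_mul, toAdd_mul]
        exact Submodule.subset_span (by simp)
    intro t ht ht'
    exact (hS ht).2
  have hQ : IsQ q β := by
    constructor
    · intro x y
      obtain ⟨g, rfl⟩ := hrep x
      obtain ⟨k, rfl⟩ := hrep y
      rw [← toAdd_mul, ← map_mul, hq, hq, hq, hβ, hb, ← toAdd_mul, ← toAdd_mul, ← map_mul,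
        ← map_mul]
      congr 2
      exact Subtype.ext (sq_mul' hcl hel g k)
    · intro x y
      obtain ⟨g, rfl⟩ := hrep x
      obtain ⟨k, rfl⟩ := hrep y
      rcases h.star g k with h1 | h1 | h1
      · left
        intro v
        obtain ⟨l, rfl⟩ := hrep v
        rw [hβ, hb]
        exact hspan g k _ (h1 l) _
      · right; left
        intro v
        obtain ⟨l, rfl⟩ := hrep v
        rw [hβ, hb]
        exact hspan g k _ (h1 l) _
      · right; right
        intro v
        obtain ⟨l, rfl⟩ := hrep v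
        rw [← toAdd_mul, ← map_mul, hβ, hb, map_mul, toAdd_mul]
        exact hspan g k _ (h1 l) _
  obtain ⟨U, hU1, hU2⟩ := TL V T q β hQ
  refine ⟨(AddSubgroup.toSubgroup U.toAddSubgroup).comap φ, ?_, ?_, ?_⟩
  · unfold Sq
    rw [closure_le]
    rintro _ ⟨x, rfl⟩
    rw [SetLike.mem_coe, mem_comap, hker' _ (hcl x)]
    exact one_mem _
  · intro x hx y hy
    have h1 : b (Multiplicative.toAdd (φ x)) (Multiplicative.toAdd (φ y)) = 0 := by
      rw [← hβ]
      exact hU1 _ hx _ hy
    rw [hb] at h1
    have h2 : ι ⟨kk x y, kk_central hcl x y⟩ = ι 1 := by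
      rw [map_one]
      exact h1
    have h3 := congrArg Subtype.val (hι h2)
    have h4 : x * y * x⁻¹ * y⁻¹ = 1 := h3
    rw [mul_inv_eq_one, mul_inv_eq_iff_eq_mul] at h4
    exact h4
  · have hsurj : Function.Surjective φ := fun v => ⟨s v, hs v⟩
    rw [index_comap_of_surjective _ hsurj, AddSubgroup.index_toSubgroup]
    have h1 := U.toAddSubgroup.index_mul_card
    have h2 : Nat.card V = 2 ^ Module.finrank (ZMod 2) V := by
      rw [Module.natCard_eq_pow_finrank (K := ZMod 2), Nat.card_zmod]
    have h3 : Nat.card U = 2 ^ Module.finrank (ZMod 2) U := by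
      rw [Module.natCard_eq_pow_finrank (K := ZMod 2), Nat.card_zmod]
    have h4 : Nat.card U.toAddSubgroup = Nat.card U := rfl
    rw [h4, h3, h2] at h1
    have h5 : 2 ^ Module.finrank (ZMod 2) V ≤ 2 ^ (Module.finrank (ZMod 2) U + 2) :=
      Nat.pow_le_pow_right (by norm_num) hU2
    rw [← h1, pow_add, mul_comm (2 ^ Module.finrank (ZMod 2) U)] at h5
    have h6 : 0 < 2 ^ Module.finrank (ZMod 2) U := by positivity
    exact Nat.le_of_mul_le_mul_right (by simpa using h5) h6

theorem class2_T
    (TL : ∀ (V T : Type) [AddCommGroup V] [Module (ZMod 2) V] [AddCommGroup T]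
      [Module (ZMod 2) T] [Finite V] [Finite T] (q : V → T)
      (β : V →ₗ[ZMod 2] V →ₗ[ZMod 2] T), IsQ q β → Good β)
    (G : Type) [Group G] [Finite G] (h : IsC G) (hcl : ∀ x : G, x ^ 2 ∈ center G)
    (hel : ∀ g ∈ center G, g ^ 2 = 1) : TT G := by
  let cg : CommGroup (G ⧸ center G) :=
    { (inferInstance : Group (G ⧸ center G)) with
      mul_comm := by
        intro a b
        induction a using QuotientGroup.induction_on with | _ g =>
        induction b using QuotientGroup.induction_on with | _ k =>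
        have h1 : (QuotientGroup.mk' (center G)) (kk g k) = 1 :=
          (QuotientGroup.eq_one_iff _).2 (kk_central hcl g k)
        unfold kk at h1
        rw [map_mul, map_mul, map_mul, map_inv, map_inv, mul_inv_eq_one, mul_inv_eq_iff_eq_mul] at h1
        exact h1 }
  let mV : Module (ZMod 2) (Additive (G ⧸ center G)) := AddCommGroup.zmodModule (by
    intro x
    have : ∀ y : G ⧸ center G, y ^ 2 = 1 := by
      intro y
      induction y using QuotientGroup.induction_on with | _ g =>
      exact (QuotientGroup.eq_one_iff _).2 (hcl g)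
    exact this x.toMul)
  let cT : CommGroup (center G) :=
    { (inferInstance : Group (center G)) with
      mul_comm := fun a b => Subtype.ext (mem_center_iff.1 b.2 a) }
  let mT : Module (ZMod 2) (Additive (center G)) := AddCommGroup.zmodModule (by
    intro x
    have : ∀ y : center G, y ^ 2 = 1 := fun y => Subtype.ext (hel y y.2)
    exact this x.toMul)
  exact class2_aux TL G h hcl hel (Additive (G ⧸ center G)) (Additive (center G))
    (QuotientGroup.mk' (center G)) (QuotientGroup.mk'_surjective _)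
    (fun g hg => (QuotientGroup.eq_one_iff g).1 hg) (fun g hg => (QuotientGroup.eq_one_iff g).2 hg)
    (MonoidHom.id _) Function.injective_id

end Pool.Agent.Helper90.Core2
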