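import Pool.Agent.Helper90.Core2.RedA
import Pool.Agent.Helper90.Core2.RedB
import Pool.Agent.Helper90.Core2.RedC

/-! MP_fafe86_al, section O2: `minCE_of`, `om_card` (RedA), `theoremL` (RedB), `class2_T` (RedC). -/
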