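import Pool.Agent.Helper5.Core2.Defs

/-! MP_fafe86_al, section O2: `minCE_of`, `om_card`. -/

set_option autoImplicit false

namespace Pool.Agent.Helper90.Core2

open Subgroup Pool.Agent.Helper5.Core2

section A

variable {G : Type*} [Group G]

theorem sq_mem_Sq (x : G) : x ^ 2 ∈ Sq G := subset_closure ⟨x, rfl⟩

theorem comm_mem_Sq (x y : G) : x * y * x⁻¹ * y⁻¹ ∈ Sq G := by
  have h : x * y * x⁻¹ * y⁻¹ = x ^ 2 * (x⁻¹ * y) ^ 2 * (y ^ 2)⁻¹ := by
    simp only [pow_two]
    group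
  rw [h]
  exact mul_mem (mul_mem (sq_mem_Sq _) (sq_mem_Sq _)) (inv_mem (sq_mem_Sq _))

theorem normal_of_Sq_le {A : Subgroup G} (h : Sq G ≤ A) : A.Normal := by
  constructor
  intro a ha g
  have h1 := mul_mem (h (comm_mem_Sq g a)) ha
  have h2 : g * a * g⁻¹ * a⁻¹ * a = g * a * g⁻¹ := by group
  rwa [h2] at h1

theorem zpow_cases {x : G} {M : Subgroup G} (hx : x ^ 2 ∈ M) (k : ℤ) :
    x ^ k ∈ M ∨ ∃ m ∈ M, x ^ k = x * m := by
  rcases Int.even_or_odd' k with ⟨j, hj | hj⟩
  · left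
    rw [hj, zpow_mul]
    exact zpow_mem (by exact_mod_cast hx) _
  · right
    refine ⟨(x ^ 2) ^ j, zpow_mem hx _, ?_⟩
    rw [hj, add_comm, zpow_add, zpow_one, zpow_mul]
    norm_cast

/-- A subgroup of index two containing all squares and avoiding `ζ`. -/
theorem exists_hyper [Finite G] {ζ : G} (hn : ζ ∉ Sq G) :
    ∃ M : Subgroup G, Sq G ≤ M ∧ ζ ∉ M ∧ ∀ g, g ∈ M ∨ ζ * g ∈ M := by
  obtain ⟨M, hM⟩ := (Set.toFinite {M : Subgroup G | Sq G ≤ M ∧ ζ ∉ M}).exists_maximal
    ⟨Sq G, le_rfl, hn⟩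
  obtain ⟨⟨hM1, hM2⟩, hmax⟩ := hM
  refine ⟨M, hM1, hM2, fun g => ?_⟩
  by_contra hcon
  push Not at hcon
  obtain ⟨hg, hzg⟩ := hcon
  have hMn := normal_of_Sq_le hM1
  have h1 : ζ ∈ M ⊔ zpowers g := by
    by_contra h2
    have h3 : M ⊔ zpowers g ≤ M :=
      hmax (show M ⊔ zpowers g ∈ {M : Subgroup G | Sq G ≤ M ∧ ζ ∉ M} from
        ⟨hM1.trans le_sup_left, h2⟩) le_sup_left
    exact hg (h3 (mem_sup_right (mem_zpowers g)))
  rw [sup_comm, mem_sup_of_normal_right] at h1
  obtain ⟨y, hy, m, hm, hym⟩ := h1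
  obtain ⟨k, rfl⟩ := mem_zpowers_iff.1 hy
  rcases zpow_cases (hM1 (sq_mem_Sq g)) k with h2 | ⟨m', hm', h2⟩
  · exact hM2 (hym ▸ mul_mem h2 hm)
  · apply hzg
    rw [h2] at hym
    have h3 : g = ζ * (m' * m)⁻¹ := by rw [← hym]; group
    have h4 : ζ * g = ζ ^ 2 * (m' * m)⁻¹ := by
      rw [h3, pow_two]; group
    rw [h4]
    exact mul_mem (hM1 (sq_mem_Sq _)) (inv_mem (mul_mem hm' hm))

theorem relindex_two {M : Subgroup G} {ζ : G} (h2 : ζ ∉ M) (h : ∀ g, g ∈ M ∨ ζ * g ∈ M) :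
    M.index = 2 := by
  rw [index_eq_two_iff']
  refine ⟨ζ, fun b => ?_⟩
  rcases h b with hb | hb
  · right
    refine ⟨hb, fun h3 => h2 ?_⟩
    have := mul_mem h3 (inv_mem hb)
    rwa [mul_inv_cancel_right] at this
  · by_cases hb' : b ∈ M
    · exfalso
      apply h2
      have := mul_mem hb (inv_mem hb')
      rwa [mul_inv_cancel_right] at this
    · exact Or.inl ⟨hb, hb'⟩

theorem card_lt_of_not_mem [Finite G] {M : Subgroup G} {ζ : G} (h : ζ ∉ M) :
    Nat.card M < Nat.card G := by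
  have h1 : Nat.card M ≠ Nat.card G := by
    intro h2
    rw [card_eq_iff_eq_top] at h2
    exact h (h2 ▸ mem_top ζ)
  exact lt_of_le_of_ne (card_le_card_group M) h1

theorem center_le_of [Finite G] (hT : ¬ TT G)
    (hsub : ∀ M : Subgroup G, Nat.card M < Nat.card G → TT M) : center G ≤ Sq G := by
  intro ζ hz
  by_contra hn
  obtain ⟨M, hM1, hM2, hM3⟩ := exists_hyper hn
  obtain ⟨A, hA1, hA2, hA3⟩ := hsub M (card_lt_of_not_mem hM2)
  have hidx : M.index = 2 := relindex_two hM2 hM3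
  have hzn : (zpowers ζ).Normal := by
    constructor
    intro n hn g
    obtain ⟨k, rfl⟩ := mem_zpowers_iff.1 hn
    have := mem_center_iff.1 (zpow_mem hz k) g
    rw [this, mul_inv_cancel_right]
    exact zpow_mem (mem_zpowers ζ) k
  have hcz : ∀ k : ℤ, ∀ g : G, g * ζ ^ k = ζ ^ k * g := fun k g => mem_center_iff.1 (zpow_mem hz k) g
  apply hT
  refine ⟨A.map M.subtype ⊔ zpowers ζ, ?_, ?_, ?_⟩
  · unfold Sq
    rw [closure_le]
    rintro _ ⟨x, rfl⟩
    simp only [SetLike.mem_coe]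
    rcases hM3 x with hx | hx
    · exact mem_sup_left ⟨⟨x, hx⟩ ^ 2, hA1 (sq_mem_Sq _), rfl⟩
    · have h1 : x ^ 2 = (ζ * x) ^ 2 * ζ ^ (-2 : ℤ) := by
        have h2 : (ζ * x) ^ 2 = ζ ^ (2 : ℤ) * x ^ 2 := by
          have h3 := mem_center_iff.1 hz x
          have h4 : Commute ζ x := h3.symm
          rw [h4.mul_pow]
          norm_cast
        rw [h2, ← hcz 2, mul_assoc, ← zpow_add]
        simp
      rw [h1]
      exact mul_mem (mem_sup_left ⟨⟨ζ * x, hx⟩ ^ 2, hA1 (sq_mem_Sq _), rfl⟩)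
        (mem_sup_right (zpow_mem (mem_zpowers ζ) _))
  · intro x hx y hy
    rw [mem_sup_of_normal_right] at hx hy
    obtain ⟨a, ⟨a', ha', rfl⟩, z1, hz1, rfl⟩ := hx
    obtain ⟨b, ⟨b', hb', rfl⟩, z2, hz2, rfl⟩ := hy
    obtain ⟨k1, rfl⟩ := mem_zpowers_iff.1 hz1
    obtain ⟨k2, rfl⟩ := mem_zpowers_iff.1 hz2
    have hab : (M.subtype a') * (M.subtype b') = (M.subtype b') * (M.subtype a') := by
      have := hA2 a' ha' b' hb'
      rw [← map_mul, this, map_mul]
    calc M.subtype a' * ζ ^ k1 * (M.subtype b' * ζ ^ k2)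
        = M.subtype a' * (ζ ^ k1 * M.subtype b') * ζ ^ k2 := by group
      _ = M.subtype a' * M.subtype b' * (ζ ^ k1 * ζ ^ k2) := by rw [← hcz k1]; group
      _ = M.subtype b' * M.subtype a' * (ζ ^ k2 * ζ ^ k1) := by
          rw [hab, ← zpow_add, ← zpow_add, add_comm]
      _ = M.subtype b' * (M.subtype a' * ζ ^ k2) * ζ ^ k1 := by group
      _ = M.subtype b' * ζ ^ k2 * (M.subtype a' * ζ ^ k1) := by rw [hcz k2]; group
  · have h1 : (A.map M.subtype).index = A.index * 2 := by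
      rw [index_map_subtype, hidx]
    have h2 : (A.map M.subtype).relIndex (A.map M.subtype ⊔ zpowers ζ) *
        (A.map M.subtype ⊔ zpowers ζ).index = (A.map M.subtype).index :=
      relIndex_mul_index le_sup_left
    have h3 : (A.map M.subtype).relIndex (A.map M.subtype ⊔ zpowers ζ) ≠ 1 := by
      rw [Ne, relIndex_eq_one]
      intro h4
      obtain ⟨a, _, ha⟩ := h4 (mem_sup_right (mem_zpowers ζ))
      exact hM2 (ha ▸ a.2)
    have h4 : (A.map M.subtype).index ≠ 0 := index_ne_zero_of_finite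
    have h5 : (A.map M.subtype).relIndex (A.map M.subtype ⊔ zpowers ζ) ≠ 0 := by
      intro h5
      rw [h5, zero_mul] at h2
      exact h4 h2.symm
    have h6 : 2 ≤ (A.map M.subtype).relIndex (A.map M.subtype ⊔ zpowers ζ) := by omega
    nlinarith [Nat.mul_le_mul_right (A.map M.subtype ⊔ zpowers ζ).index h6]

end A

theorem minCE_of (G : Type) [Group G] [Finite G] (h : IsC G) (hT : ¬ TT G)
    (toSubgroup : ∀ H : Subgroup G, IsC H)
    (toQuotient : ∀ (N : Subgroup G) [N.Normal], IsC (G ⧸ N))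
    (IH : ∀ (H : Type) [Group H] [Finite H], Nat.card H < Nat.card G → IsC H → TT H) :
    MinCE G where
  c := h
  notT := hT
  quot := by
    intro N hN hN1
    obtain ⟨A, hA1, hA2, hA3⟩ := IH (G ⧸ N) (by
      have h1 := card_eq_card_quotient_mul_card_subgroup N
      have h2 : 1 < Nat.card N := (one_lt_card_iff_ne_bot N).2 hN1
      rw [h1]
      have h3 : 0 < Nat.card (G ⧸ N) := Nat.card_pos
      nlinarith) (toQuotient N)
    refine ⟨A.comap (QuotientGroup.mk' N), ?_, ?_, ?_, ?_⟩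
    · unfold Sq
      rw [closure_le]
      rintro _ ⟨x, rfl⟩
      simp only [SetLike.mem_coe, mem_comap, map_pow]
      exact hA1 (sq_mem_Sq _)
    · intro n hn
      have h1 : (QuotientGroup.mk' N) n = 1 := (QuotientGroup.eq_one_iff n).2 hn
      rw [mem_comap, h1]
      exact one_mem _
    · intro x hx y hy
      have := hA2 _ hx _ hy
      rw [← QuotientGroup.eq_one_iff]
      have h1 : (QuotientGroup.mk' N) (x * y * x⁻¹ * y⁻¹) = 1 := by
        rw [map_mul, map_mul, map_mul, this, map_inv, map_inv, mul_inv_cancel_right, mul_inv_cancel]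
      exact h1
    · rw [index_comap_of_surjective _ (QuotientGroup.mk'_surjective N)]
      exact hA3
  center_le := center_le_of hT fun M hM => IH M hM (toSubgroup M)

section B

variable {G : Type*} [Group G]

theorem exists_order_two [Finite G] (h2 : IsPGroup 2 G) {c : G} (hc : c ≠ 1) :
    ∃ k : ℕ, (c ^ k) ^ 2 = 1 ∧ c ^ k ≠ 1 := by
  obtain ⟨n, hn⟩ := (IsPGroup.iff_orderOf.1 h2) c
  cases n with
  | zero =>
    rw [pow_zero, orderOf_eq_one_iff] at hn
    exact absurd hn hc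
  | succ n =>
    refine ⟨2 ^ n, ?_, ?_⟩
    · rw [← pow_mul, ← pow_succ, ← hn, pow_orderOf_eq_one]
    · intro h
      have := orderOf_dvd_of_pow_eq_one h
      rw [hn] at this
      have h3 := Nat.le_of_dvd (by positivity) this
      rw [pow_succ] at h3
      have : 0 < 2 ^ n := by positivity
      omega

theorem exists_invol [Finite G] (h2 : IsPGroup 2 G) {N : Subgroup G} (hN : N.Normal)
    (hN1 : N ≠ ⊥) : ∃ w ∈ N, w ∈ Om G ∧ w ≠ 1 := by
  have hd : 2 ∣ Nat.card N := by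
    rcases (h2.to_subgroup N).card_eq_or_dvd with h | h
    · rw [card_eq_one] at h
      exact absurd h hN1
    · exact h
  obtain ⟨b, hb, hb1⟩ := (h2.of_equiv ConjAct.toConjAct).exists_fixed_point_of_prime_dvd_card_of_fixed_point
    N hd (a := 1) (by
      intro g
      exact smul_one g)
  have hbc : (b : G) ∈ center G := by
    rw [mem_center_iff]
    intro g
    have h1 := hb (ConjAct.toConjAct g)
    have h3 := congrArg Subtype.val h1
    rw [ConjAct.Subgroup.val_conj_smul, ConjAct.smul_def, ConjAct.ofConjAct_toConjAct] at h3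
    nth_rewrite 2 [← h3]
    group
  have hb1' : (b : G) ≠ 1 := fun h => hb1 (Subtype.ext h).symm
  obtain ⟨k, hk1, hk2⟩ := exists_order_two h2 hb1'
  exact ⟨b ^ k, pow_mem b.2 k, ⟨pow_mem hbc k, hk1⟩, hk2⟩

theorem om_card [Finite G] (MM : ∀ {z : G}, Mono z → TT G) (h : MinCE G) :
    4 ≤ Nat.card (Om G) := by
  classical
  have := Fintype.ofFinite (Om G)
  by_contra hcon
  have hp : IsPGroup 2 (Om G) := fun g => ⟨1, by
    apply Subtype.ext
    simpa using g.2.2⟩
  obtain ⟨k, hk⟩ := hp.exists_card_eq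
  have hle : Nat.card (Om G) ≤ 2 := by
    rw [hk] at hcon ⊢
    have : k ≤ 1 := by
      by_contra h1
      push Not at h1
      exact hcon (Nat.pow_le_pow_right (n := 2) (by norm_num) h1)
    exact (Nat.pow_le_pow_right (n := 2) (by norm_num) this)
  by_cases htop : (⊤ : Subgroup G) = ⊥
  · apply h.notT
    refine ⟨⊤, le_top, fun x _ y _ => ?_, by simp⟩
    have hx : ∀ x : G, x = 1 := fun x => by
      have : x ∈ (⊤ : Subgroup G) := mem_top x
      rw [htop, mem_bot] at this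
      exact this
    rw [hx x, hx y]
  · obtain ⟨w, -, hw, hw1⟩ := exists_invol h.c.two inferInstance htop
    apply h.notT
    apply MM (z := w)
    refine ⟨hw1, fun N hN hN1 => ?_⟩
    obtain ⟨w', hw'N, hw', hw'1⟩ := exists_invol h.c.two hN hN1
    by_contra hne
    rw [Nat.card_eq_fintype_card] at hle
    apply absurd hle
    rw [not_le, Fintype.two_lt_card_iff]
    refine ⟨1, ⟨w, hw⟩, ⟨w', hw'⟩, ?_, ?_, ?_⟩
    · intro h1
      exact hw1 (congrArg Subtype.val h1).symm
    · intro h1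
      exact hw'1 (congrArg Subtype.val h1).symm
    · intro h1
      have := congrArg Subtype.val h1
      simp only at this
      exact hne (this ▸ hw'N)

end B

end Pool.Agent.Helper90.Core2
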